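import Pool.Agent.Helper75.Tile.Final

/-!
# Every level-one tiling of the line by translates of a set of finite measure is periodic

Let `Ω ⊆ ℝ` be Lebesgue measurable with `0 < mes Ω < ∞` and let `Λ` be a countable set such that
almost every point of the line lies in exactly one of the sets `Ω + λ`, `λ ∈ Λ`. Then `Λ` is a
finite union of translates of one arithmetic progression `α ℤ`, with `α` a positive integer
multiple of `mes Ω`.

Idea of the proof. For `l ≥ 1` let `D_l(x) = l - #(Λ ∩ (x, x + l mes Ω])`. It is bounded uniformly
in `l` and `x`, its convolution with `1_Ω` vanishes, and its jumps are at points of the two tilings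
`Λ` and `Λ - l mes Ω`. If `χ` is a weight with spectrum in a small interval `[-3σ, 3σ]` and `H` is
a local average of `D_l χ`, then `‖1_Ω * H‖² ≤ q ‖H‖²` with `q` small, because `1_Ω * D_l = 0`. If
in a window `W` the function `D_l` lives near the points of a tiling `B` and does not change sign
in the cells around them, the near orthogonality of the tiles `Ω + b`, `b ∈ B`, gives a lower
bound for the contribution of `W`, so that `∑_b (∫_{cell b} D_l χ)²` is bounded by the part of
`∫ D_l² χ²` outside of `W`. The weights `T_k(1 + cos θ) (sin θ / θ)^{2k}`, `T_k` the Chebyshev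
polynomials, make this part negligible even against the values of `χ` near the ends of `W`. So if
`D_l` has zeros in every interval of length `η` in a long window, no zero-free interval of length
`η` can occur at the first exit, hence nowhere, and then `D_l = 0` identically. The pigeonhole
principle gives an `l` with such a window, and `D_l = 0` says that `l mes Ω` is a period of `Λ`.
-/

open MeasureTheory
open scoped ENNReal

namespace Pool.Agent.Results.MP_793d1e_an.LevelOnePeriodic

theorem result (Ω Λ : Set ℝ) (hΩ : NullMeasurableSet Ω volume) (h0 : volume Ω ≠ 0)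
    (h1 : volume Ω ≠ ∞) (hΛ : Λ.Countable)
    (h : ∀ᵐ x : ℝ, ∑' l : Λ, Ω.indicator (fun _ => (1 : ℝ≥0∞)) (x - l) = 1) :
    ∃ (α : ℝ) (N : ℕ) (β : Fin N → ℝ), 0 < α ∧ 1 ≤ N ∧
      (∃ l : ℕ, α = l * (volume Ω).toReal) ∧
      Λ = ⋃ j : Fin N, {x : ℝ | ∃ k : ℤ, x = α * k + β j} :=
  Pool.Agent.Helper75.Tile.structure_theorem Ω Λ hΩ h0 h1 hΛ h

end Pool.Agent.Results.MP_793d1e_an.LevelOnePeriodic
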